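import Pool.Agent.Y64.RR.Stm

set_option autoImplicit false

/-!
Discrepancy of a rotation by a badly approximable number (job RR-CNT).
-/

namespace Pool.Agent.Y899.RR

open Finset Pool.Agent.Y64.RR

theorem floor_sub (y w : ℝ) (h0 : 0 ≤ w) (h1 : w ≤ 1) :
    ⌊y - w⌋ = if Int.fract y < w then ⌊y⌋ - 1 else ⌊y⌋ := by
  have hf0 := Int.fract_nonneg y
  have hf1 := Int.fract_lt_one y
  have hy := Int.floor_add_fract y
  split_ifs with h
  · rw [Int.floor_eq_iff]
    push_cast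
    constructor <;> linarith
  · rw [Int.floor_eq_iff]
    push Not at h
    constructor <;> linarith

theorem ind_eq (u v y : ℝ) (h0 : 0 ≤ u) (huv : u ≤ v) (h1 : v ≤ 1) :
    (if u ≤ Int.fract y ∧ Int.fract y < v then (1 : ℤ) else 0) = ⌊y - u⌋ - ⌊y - v⌋ := by
  rw [floor_sub y u h0 (huv.trans h1), floor_sub y v (h0.trans huv) h1]
  by_cases h2 : Int.fract y < u
  · have h3 : Int.fract y < v := lt_of_lt_of_le h2 huv
    rw [if_pos h2, if_pos h3, if_neg (fun h => absurd h.1 (not_le.mpr h2))]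
    ring
  · push Not at h2
    rw [if_neg (not_lt.mpr h2)]
    by_cases h3 : Int.fract y < v
    · rw [if_pos h3, if_pos ⟨h2, h3⟩]
      ring
    · rw [if_neg h3, if_neg (fun h => h3 h.2)]
      ring

/-- sum of the residues -/
theorem sum_mod (a : ℤ) (b : ℕ) (hb : 0 < b) (hab : IsCoprime a (b : ℤ)) (n : ℤ) :
    ∑ k ∈ range b, (n + k * a) % (b : ℤ) = ∑ s ∈ range b, (s : ℤ) := by
  have hb' : (0 : ℤ) < b := by exact_mod_cast hb
  let e : ℕ → ℕ := fun k => ((n + k * a) % (b : ℤ)).toNat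
  have he : ∀ k, (e k : ℤ) = (n + k * a) % (b : ℤ) := fun k =>
    Int.toNat_of_nonneg (Int.emod_nonneg _ hb'.ne')
  have hinj : Set.InjOn e (range b : Set ℕ) := by
    intro k hk k' hk' h
    have hk := Finset.mem_range.mp (Finset.mem_coe.mp hk)
    have hk' := Finset.mem_range.mp (Finset.mem_coe.mp hk')
    have h2 : (n + k * a) % (b : ℤ) = (n + k' * a) % (b : ℤ) := by
      rw [← he, ← he, h]
    have h3 : (b : ℤ) ∣ (n + k' * a) - (n + k * a) := Int.ModEq.dvd h2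
    have h4 : (b : ℤ) ∣ ((k' : ℤ) - k) * a := by
      have : (n + k' * a) - (n + k * a) = ((k' : ℤ) - k) * a := by ring
      rwa [this] at h3
    have h5 : (b : ℤ) ∣ (k' : ℤ) - k := hab.symm.dvd_of_dvd_mul_right h4
    have h6 : (k' : ℤ) - k = 0 := by
      apply Int.eq_zero_of_abs_lt_dvd h5
      rw [abs_lt]
      constructor <;> omega
    omega
  have himg : (range b).image e = range b := by
    apply Finset.eq_of_subset_of_card_le
    · intro x hx
      obtain ⟨k, -, rfl⟩ := Finset.mem_image.mp hx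
      rw [Finset.mem_range]
      have h1 := he k
      have h2 := Int.emod_lt_of_pos (n + k * a) hb'
      omega
    · rw [Finset.card_image_of_injOn hinj]
  have h1 : ∑ s ∈ (range b).image e, (s : ℤ) = ∑ k ∈ range b, (e k : ℤ) :=
    Finset.sum_image hinj
  rw [himg] at h1
  rw [h1]
  exact Finset.sum_congr rfl (fun k _ => (he k).symm)

theorem floor_div' (x : ℝ) (k : ℕ) (a : ℤ) (b : ℕ) (hb : 0 < b) :
    ⌊(x + k * a) / b⌋ = (⌊x⌋ + k * a) / (b : ℤ) := by
  have hb' : (0 : ℝ) < b := by exact_mod_cast hb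
  have hbz : (0 : ℤ) < b := by exact_mod_cast hb
  have h1 := Int.emod_nonneg (⌊x⌋ + k * a) hbz.ne'
  have h2 := Int.emod_lt_of_pos (⌊x⌋ + k * a) hbz
  have h3 := Int.mul_ediv_add_emod (⌊x⌋ + k * a) (b : ℤ)
  rw [Int.floor_eq_iff]
  have h4 : ((b : ℤ) : ℝ) * (((⌊x⌋ + k * a) / (b : ℤ) : ℤ) : ℝ) +
      (((⌊x⌋ + k * a) % (b : ℤ) : ℤ) : ℝ) = (⌊x⌋ : ℝ) + k * a := by
    exact_mod_cast h3
  have h5 := Int.floor_le x
  have h6 := Int.lt_floor_add_one x
  have h7 : (0 : ℝ) ≤ (((⌊x⌋ + k * a) % (b : ℤ) : ℤ) : ℝ) := by exact_mod_cast h1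
  have h8 : (((⌊x⌋ + k * a) % (b : ℤ) : ℤ) : ℝ) + 1 ≤ b := by
    have : (⌊x⌋ + k * a) % (b : ℤ) + 1 ≤ b := h2
    exact_mod_cast this
  rw [Int.cast_natCast] at h4
  constructor
  · rw [le_div_iff₀ hb']
    linarith
  · rw [div_lt_iff₀ hb']
    linarith

/-- Hermite's identity -/
theorem hermite (a : ℤ) (b : ℕ) (hb : 0 < b) (hab : IsCoprime a (b : ℤ)) :
    ∃ c : ℤ, ∀ x : ℝ, ∑ k ∈ range b, ⌊(x + k * a) / b⌋ = ⌊x⌋ + c := by
  have hbz : (0 : ℤ) < b := by exact_mod_cast hb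
  have key : ∀ n : ℤ, (b : ℤ) * ∑ k ∈ range b, (n + k * a) / (b : ℤ) =
      b * n + ∑ k ∈ range b, ((k : ℤ) * a) - ∑ s ∈ range b, (s : ℤ) := by
    intro n
    rw [← sum_mod a b hb hab n, Finset.mul_sum]
    have : ∀ k ∈ range b, (b : ℤ) * ((n + k * a) / (b : ℤ)) =
        (n + k * a) - (n + k * a) % (b : ℤ) := by
      intro k _
      have := Int.mul_ediv_add_emod (n + k * a) (b : ℤ)
      linarith
    rw [Finset.sum_congr rfl this, Finset.sum_sub_distrib, Finset.sum_add_distrib]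
    simp
  refine ⟨∑ k ∈ range b, (0 + k * a) / (b : ℤ), fun x => ?_⟩
  have h1 := key ⌊x⌋
  have h2 := key 0
  have h3 : ∑ k ∈ range b, ⌊(x + k * a) / b⌋ = ∑ k ∈ range b, (⌊x⌋ + k * a) / (b : ℤ) :=
    Finset.sum_congr rfl (fun k _ => floor_div' x k a b hb)
  rw [h3]
  have h4 : (b : ℤ) * (∑ k ∈ range b, (⌊x⌋ + k * a) / (b : ℤ)) =
      b * (⌊x⌋ + ∑ k ∈ range b, (0 + k * a) / (b : ℤ)) := by
    rw [mul_add, h1, h2]
    ring
  exact mul_left_cancel₀ hbz.ne' h4

/-- the count for a block of `b` consecutive integers -/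
theorem block (a : ℤ) (b : ℕ) (hb : 0 < b) (hab : IsCoprime a (b : ℤ)) (ρ : ℝ)
    (hρ : (b : ℝ) * |b * ρ - a| ≤ 1) (z u v : ℝ) :
    |((∑ k ∈ range b, (⌊z + k * ρ - u⌋ - ⌊z + k * ρ - v⌋) : ℤ) : ℝ) - b * (v - u)| ≤ 3 := by
  have hb' : (0 : ℝ) < b := by exact_mod_cast hb
  obtain ⟨c, hc⟩ := hermite a b hb hab
  have key : ∀ w : ℝ, (b * (z - w) - 2 + c : ℝ) ≤ ((∑ k ∈ range b, ⌊z + k * ρ - w⌋ : ℤ) : ℝ) ∧
      ((∑ k ∈ range b, ⌊z + k * ρ - w⌋ : ℤ) : ℝ) ≤ b * (z - w) + 1 + c := by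
    intro w
    have hk : ∀ k ∈ range b, |(k : ℝ) * (b * ρ - a)| ≤ 1 := by
      intro k hk
      rw [Finset.mem_range] at hk
      have hk' : (k : ℝ) ≤ b := by exact_mod_cast hk.le
      rw [abs_mul, Nat.abs_cast]
      exact (mul_le_mul_of_nonneg_right hk' (abs_nonneg _)).trans hρ
    have h1 : ∑ k ∈ range b, ⌊(b * (z - w) - 1 + k * a) / b⌋ ≤
        ∑ k ∈ range b, ⌊z + k * ρ - w⌋ := by
      apply Finset.sum_le_sum
      intro k hkb
      apply Int.floor_le_floor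
      have := (abs_le.mp (hk k hkb)).1
      rw [div_le_iff₀ hb']
      linarith
    have h2 : ∑ k ∈ range b, ⌊z + k * ρ - w⌋ ≤
        ∑ k ∈ range b, ⌊(b * (z - w) + 1 + k * a) / b⌋ := by
      apply Finset.sum_le_sum
      intro k hkb
      apply Int.floor_le_floor
      have := (abs_le.mp (hk k hkb)).2
      rw [le_div_iff₀ hb']
      linarith
    rw [hc] at h1 h2
    have h3 := Int.lt_floor_add_one (b * (z - w) - 1)
    have h4 := Int.floor_le (b * (z - w) + 1)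
    have h1' : ((⌊b * (z - w) - 1⌋ + c : ℤ) : ℝ) ≤ ((∑ k ∈ range b, ⌊z + k * ρ - w⌋ : ℤ) : ℝ) := by
      exact_mod_cast h1
    have h2' : ((∑ k ∈ range b, ⌊z + k * ρ - w⌋ : ℤ) : ℝ) ≤ ((⌊b * (z - w) + 1⌋ + c : ℤ) : ℝ) := by
      exact_mod_cast h2
    rw [Int.cast_add] at h1' h2'
    constructor <;> linarith
  obtain ⟨hu1, hu2⟩ := key u
  obtain ⟨hv1, hv2⟩ := key v
  rw [Finset.sum_sub_distrib, Int.cast_sub, abs_le]
  constructor <;> linarith

theorem cnt : StCnt := by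
  refine ⟨4, by norm_num, ?_⟩
  intro E m ρ hE hbad N₀ N hN hNm β u v hu huv hv
  -- the indicator function
  let g : ℕ → ℤ := fun k => ⌊N₀ * ρ + β + k * ρ - u⌋ - ⌊N₀ * ρ + β + k * ρ - v⌋
  have hg : ∀ k : ℕ, g k = if u ≤ Int.fract (((N₀ + k : ℤ) : ℝ) * ρ + β) ∧
      Int.fract (((N₀ + k : ℤ) : ℝ) * ρ + β) < v then 1 else 0 := by
    intro k
    rw [ind_eq u v _ hu huv hv]
    have : (((N₀ + k : ℤ) : ℝ) * ρ + β) = N₀ * ρ + β + k * ρ := by push_cast; ring
    rw [this]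
  have hg01 : ∀ k, 0 ≤ g k ∧ g k ≤ 1 := by
    intro k
    rw [hg]
    split_ifs <;> simp
  have hcard : (((Finset.Ico N₀ (N₀ + N)).filter (fun i : ℤ => u ≤ Int.fract (i * ρ + β) ∧
      Int.fract (i * ρ + β) < v)).card : ℤ) = ∑ k ∈ range N, g k := by
    rw [Finset.card_filter]
    push_cast
    refine Finset.sum_nbij' (fun i => (i - N₀).toNat) (fun k => N₀ + (k : ℤ)) ?_ ?_ ?_ ?_ ?_
    · intro i hi
      rw [Finset.mem_Ico] at hi
      rw [Finset.mem_range]
      omega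
    · intro k hk
      rw [Finset.mem_range] at hk
      rw [Finset.mem_Ico]
      omega
    · intro i hi
      rw [Finset.mem_Ico] at hi
      omega
    · intro k hk
      omega
    · intro i hi
      rw [Finset.mem_Ico] at hi
      rw [hg]
      have : N₀ + ((i - N₀).toNat : ℤ) = i := by omega
      rw [this]
  have hcard' : (((Finset.Ico N₀ (N₀ + N)).filter (fun i : ℤ => u ≤ Int.fract (i * ρ + β) ∧
      Int.fract (i * ρ + β) < v)).card : ℝ) = ((∑ k ∈ range N, g k : ℤ) : ℝ) := by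
    rw [← hcard]
    push_cast
    rfl
  rw [hcard']
  have hsN : 1 ≤ √(N : ℝ) := by
    rw [Real.one_le_sqrt]
    exact_mod_cast hN
  have hsN2 : √(N : ℝ) * √(N : ℝ) = N := Real.mul_self_sqrt (Nat.cast_nonneg N)
  -- trivial bound
  have htriv : ∀ n r : ℕ, |((∑ k ∈ range r, g (n + k) : ℤ) : ℝ) - r * (v - u)| ≤ r := by
    intro n r
    have h1 : 0 ≤ ∑ k ∈ range r, g (n + k) := Finset.sum_nonneg (fun k _ => (hg01 _).1)
    have h2 : ∑ k ∈ range r, g (n + k) ≤ r := by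
      have := Finset.sum_le_sum (fun k (_ : k ∈ range r) => (hg01 (n + k)).2)
      simpa using this
    have h1' : (0 : ℝ) ≤ ((∑ k ∈ range r, g (n + k) : ℤ) : ℝ) := by exact_mod_cast h1
    have h2' : ((∑ k ∈ range r, g (n + k) : ℤ) : ℝ) ≤ r := by exact_mod_cast h2
    have hr : (0 : ℝ) ≤ r := Nat.cast_nonneg r
    have h3 : 0 ≤ (r : ℝ) * (v - u) := mul_nonneg hr (by linarith)
    have h4 : (r : ℝ) * (v - u) ≤ r * 1 := mul_le_mul_of_nonneg_left (by linarith) hr
    rw [abs_le]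
    constructor <;> linarith
  -- the approximation
  obtain ⟨n, hn⟩ : ∃ n : ℕ, n = Nat.sqrt N := ⟨_, rfl⟩
  have hn0 : 0 < n := by
    rw [hn]
    exact Nat.sqrt_pos.mpr (by omega)
  have hn1 : (n : ℝ) ≤ √(N : ℝ) := by
    rw [hn]
    exact Real.nat_sqrt_le_real_sqrt
  have hn2 : √(N : ℝ) ≤ n + 1 := by
    rw [hn]
    exact Real.real_sqrt_le_nat_sqrt_succ
  obtain ⟨q, hq1, hq2⟩ := Real.exists_rat_abs_sub_le_and_den_le ρ hn0
  have hb : 0 < q.den := q.den_pos
  have hbR : (0 : ℝ) < q.den := by exact_mod_cast hb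
  have hbn : (q.den : ℝ) ≤ n := by exact_mod_cast hq2
  have hcop : IsCoprime q.num (q.den : ℤ) := by
    rw [Int.isCoprime_iff_gcd_eq_one]
    have := q.reduced
    unfold Nat.Coprime at this
    rw [Int.gcd_eq_natAbs]
    simpa using this
  have hq3 : |(q.den : ℝ) * ρ - q.num| ≤ 1 / (n + 1) := by
    have h1 : (q.den : ℝ) * ρ - q.num = q.den * (ρ - q) := by
      have : (q : ℝ) = q.num / q.den := by
        exact_mod_cast (Rat.num_div_den q).symm
      rw [this]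
      field_simp
    rw [h1, abs_mul, abs_of_pos hbR]
    calc (q.den : ℝ) * |ρ - q| ≤ q.den * (1 / ((n + 1) * q.den)) :=
          mul_le_mul_of_nonneg_left hq1 hbR.le
      _ = 1 / (n + 1) := by field_simp
  by_cases hbm : q.den < m
  · -- main case
    have h1 := hbad q.den hb hbm q.num
    have hE0 : (0 : ℝ) < E := by linarith
    have h2 : (n + 1 : ℝ) ≤ E * q.den := by
      have h3 := h1.trans hq3
      rw [div_le_div_iff₀ (mul_pos hE0 hbR) (by positivity)] at h3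
      linarith
    have hρ : (q.den : ℝ) * |q.den * ρ - q.num| ≤ 1 := by
      calc (q.den : ℝ) * |q.den * ρ - q.num| ≤ n * (1 / (n + 1)) :=
            mul_le_mul hbn hq3 (abs_nonneg _) (Nat.cast_nonneg _)
        _ ≤ 1 := by
            rw [mul_one_div, div_le_one (by positivity)]
            linarith
    have hblocks : ∀ j : ℕ, |((∑ k ∈ range (q.den * j), g k : ℤ) : ℝ) -
        (q.den * j : ℕ) * (v - u)| ≤ 3 * j := by
      intro j
      induction j with
      | zero => simp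
      | succ j ih =>
        rw [Nat.mul_succ, Finset.sum_range_add]
        have h3 := block q.num q.den hb hcop ρ hρ (N₀ * ρ + β + (q.den * j : ℕ) * ρ) u v
        have h4 : ∑ k ∈ range q.den, g (q.den * j + k) = ∑ k ∈ range q.den,
            (⌊N₀ * ρ + β + (q.den * j : ℕ) * ρ + k * ρ - u⌋ -
              ⌊N₀ * ρ + β + (q.den * j : ℕ) * ρ + k * ρ - v⌋) := by
          apply Finset.sum_congr rfl
          intro k _
          have h5 : N₀ * ρ + β + ((q.den * j + k : ℕ) : ℝ) * ρ =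
              N₀ * ρ + β + (q.den * j : ℕ) * ρ + k * ρ := by
            push_cast
            ring
          show ⌊N₀ * ρ + β + ((q.den * j + k : ℕ) : ℝ) * ρ - u⌋ -
            ⌊N₀ * ρ + β + ((q.den * j + k : ℕ) : ℝ) * ρ - v⌋ = _
          rw [h5]
        rw [h4]
        rw [abs_le] at ih h3 ⊢
        push_cast at ih h3 ⊢
        constructor <;> linarith [ih.1, ih.2, h3.1, h3.2]
    obtain ⟨j, r, hjr, hr⟩ : ∃ j r : ℕ, N = q.den * j + r ∧ r < q.den :=
      ⟨N / q.den, N % q.den, (Nat.div_add_mod N q.den).symm, Nat.mod_lt _ hb⟩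
    have hj := hblocks j
    have hrr := htriv (q.den * j) r
    have hsum : ∑ k ∈ range N, g k = ∑ k ∈ range (q.den * j), g k +
        ∑ k ∈ range r, g (q.den * j + k) := by
      rw [hjr, Finset.sum_range_add]
    have hNR : (N : ℝ) = q.den * j + r := by exact_mod_cast hjr
    have hr' : (r : ℝ) ≤ q.den := by exact_mod_cast hr.le
    have hjE : (j : ℝ) ≤ E * √(N : ℝ) := by
      have h5 : (q.den : ℝ) * j ≤ N := by
        rw [hNR]
        have : (0 : ℝ) ≤ r := Nat.cast_nonneg r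
        linarith
      have h6 : √(N : ℝ) ≤ E * q.den := hn2.trans h2
      have h7 : √(N : ℝ) * j ≤ E * N := by
        calc √(N : ℝ) * j ≤ E * q.den * j :=
              mul_le_mul_of_nonneg_right h6 (Nat.cast_nonneg j)
          _ = E * (q.den * j) := by ring
          _ ≤ E * N := mul_le_mul_of_nonneg_left h5 hE0.le
      have h8 : √(N : ℝ) * j ≤ √(N : ℝ) * (E * √(N : ℝ)) := by
        calc √(N : ℝ) * j ≤ E * N := h7
          _ = √(N : ℝ) * (E * √(N : ℝ)) := by linear_combination (-E) * hsN2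
      exact le_of_mul_le_mul_left h8 (by linarith)
    have hbE : (q.den : ℝ) ≤ E * √(N : ℝ) := by
      calc (q.den : ℝ) ≤ √(N : ℝ) := hbn.trans hn1
        _ = 1 * √(N : ℝ) := (one_mul _).symm
        _ ≤ E * √(N : ℝ) := mul_le_mul_of_nonneg_right hE (by linarith)
    rw [hsum]
    rw [abs_le] at hj hrr ⊢
    push_cast at hj hrr ⊢
    rw [hNR]
    rw [hNR] at hjE hbE
    constructor <;> linarith [hj.1, hj.2, hrr.1, hrr.2]
  · -- trivial case
    push Not at hbm
    have h1 : (N : ℝ) ≤ √(N : ℝ) := by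
      calc (N : ℝ) ≤ m := by exact_mod_cast hNm
        _ ≤ q.den := by exact_mod_cast hbm
        _ ≤ √(N : ℝ) := hbn.trans hn1
    have h2 := htriv 0 N
    simp only [zero_add] at h2
    calc |((∑ k ∈ range N, g k : ℤ) : ℝ) - N * (v - u)| ≤ N := h2
      _ ≤ √(N : ℝ) := h1
      _ = 1 * √(N : ℝ) := (one_mul _).symm
      _ ≤ (4 * E) * √(N : ℝ) := mul_le_mul_of_nonneg_right (by linarith) (by linarith)

end Pool.Agent.Y899.RR
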