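import Pool.Agent.Y64.RR.Stm

set_option autoImplicit false

/-!
Product formula for Gaussian binomials on the unit circle (job RR-QB).
-/

namespace Pool.Agent.Y899.RR

open Finset Pool.Agent.Y64.RR

theorem ee_add (x y : ℝ) : ee (x + y) = ee x * ee y := by
  unfold ee
  rw [← Complex.exp_add]
  congr 1
  push_cast
  ring

theorem ee_zero : ee 0 = 1 := by
  unfold ee
  simp

theorem ee_ne (x : ℝ) : ee x ≠ 0 := Complex.exp_ne_zero _

theorem ee_nat (t : ℝ) (n : ℕ) : ee t ^ n = ee (n * t) := by
  unfold ee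
  rw [← Complex.exp_nat_mul]
  congr 1
  push_cast
  ring

theorem ee_half (y : ℝ) : ee (y / 2) = Complex.exp (Real.pi * y * Complex.I) := by
  unfold ee
  congr 1
  push_cast
  ring

theorem one_sub_ee (y : ℝ) :
    1 - ee y = -2 * Complex.I * (Real.sin (Real.pi * y) : ℝ) * ee (y / 2) := by
  have h1 : ee y = ee (y / 2) * ee (y / 2) := by
    rw [← ee_add]
    congr 1
    ring
  rw [h1, ee_half, Complex.ofReal_sin, Complex.sin]
  have h2 : Complex.exp (-((Real.pi * y : ℝ) : ℂ) * Complex.I) *
      Complex.exp (Real.pi * y * Complex.I) = 1 := by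
    rw [← Complex.exp_add]
    simp
  have h3 : Complex.exp (((Real.pi * y : ℝ) : ℂ) * Complex.I) =
      Complex.exp (Real.pi * y * Complex.I) := by
    push_cast
    rfl
  rw [h3]
  have hI : Complex.I * Complex.I = -1 := Complex.I_mul_I
  linear_combination (-1 : ℂ) * h2 + (Complex.exp (-((Real.pi * y : ℝ) : ℂ) * Complex.I) -
    Complex.exp (Real.pi * y * Complex.I)) * Complex.exp (Real.pi * y * Complex.I) * hI

theorem gb_zero_right (x : ℂ) (n : ℕ) : gb x n 0 = 1 := by
  cases n <;> rfl

theorem gb_eq_zero (x : ℂ) (n k : ℕ) (h : n < k) : gb x n k = 0 := by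
  induction n generalizing k with
  | zero =>
    cases k with
    | zero => omega
    | succ k => rfl
  | succ n ih =>
    cases k with
    | zero => omega
    | succ k =>
      rw [gb, ih (k + 1) (by omega), ih k (by omega)]
      simp

theorem gb_prod (x : ℂ) (n k : ℕ) (h : k ≤ n) :
    gb x n k * ∏ i ∈ range k, (1 - x ^ (i + 1)) = ∏ i ∈ range k, (1 - x ^ (n - i)) := by
  induction n generalizing k with
  | zero =>
    obtain rfl : k = 0 := by omega
    simp [gb_zero_right]
  | succ n ih =>
    cases k with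
    | zero => simp [gb_zero_right]
    | succ k =>
      have h1 := ih k (by omega)
      have h2 : gb x n (k + 1) * ∏ i ∈ range (k + 1), (1 - x ^ (i + 1)) =
          (∏ i ∈ range k, (1 - x ^ (n - i))) * (1 - x ^ (n - k)) := by
        rcases Nat.lt_or_ge k n with h3 | h3
        · rw [ih (k + 1) (by omega), prod_range_succ]
        · obtain rfl : k = n := by omega
          rw [gb_eq_zero x k (k + 1) (by omega)]
          simp
      rw [gb, add_mul, h2, prod_range_succ' (fun i => 1 - x ^ (n + 1 - i)),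
        prod_range_succ (fun i => 1 - x ^ (i + 1))]
      have h4 : ∀ i, n + 1 - (i + 1) = n - i := fun i => by omega
      simp only [h4, Nat.sub_zero]
      have h5 : x ^ (n + 1) = x ^ (n - k) * x ^ (k + 1) := by
        rw [← pow_add]
        congr 1
        omega
      rw [h5]
      linear_combination (x ^ (n - k) * (1 - x ^ (k + 1))) * h1

theorem qb : StQB := by
  intro t δ m c hmt hs l hl hlm
  have hne : ∀ i : ℕ, 1 ≤ i → i < m → (1 - ee t ^ i) ≠ 0 := by
    intro i h1 h2
    rw [ee_nat, one_sub_ee]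
    have := hs i h1 h2
    refine mul_ne_zero (mul_ne_zero (mul_ne_zero (by norm_num) Complex.I_ne_zero) ?_) (ee_ne _)
    exact_mod_cast this
  have hstep : ∀ l : ℕ, l < m → gb (ee t) m (l + 1) * (1 - ee t ^ (l + 1)) =
      gb (ee t) m l * (1 - ee t ^ (m - l)) := by
    intro l hlm
    have h1 := gb_prod (ee t) m (l + 1) (by omega)
    have h2 := gb_prod (ee t) m l (by omega)
    rw [prod_range_succ, prod_range_succ] at h1
    have h3 : ∏ i ∈ range l, (1 - ee t ^ (i + 1)) ≠ 0 := by
      apply Finset.prod_ne_zero_iff.mpr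
      intro i hi
      rw [Finset.mem_range] at hi
      exact hne (i + 1) (by omega) (by omega)
    apply mul_left_cancel₀ h3
    linear_combination h1 - (1 - ee t ^ (m - l)) * h2
  -- the reflection
  have hee : ee ((c + 1) / 2) = (Real.cos (Real.pi * (c + 1)) : ℝ) := by
    rw [ee_half]
    have h1 : ((Real.pi : ℂ) * ((c + 1 : ℝ) : ℂ) * Complex.I) =
        ((Real.pi * (c + 1) : ℝ) : ℂ) * Complex.I := by push_cast; ring
    rw [h1, Complex.exp_mul_I, ← Complex.ofReal_cos, ← Complex.ofReal_sin]
    have h2 : Real.sin (Real.pi * (c + 1)) = 0 := by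
      have := Real.sin_int_mul_pi (c + 1)
      push_cast at this
      rw [mul_comm]
      exact this
    rw [h2]
    simp
  have hrefl : ∀ l : ℕ, Real.sin (Real.pi * ((m - l) * t)) =
      Real.cos (Real.pi * (c + 1)) * Real.sin (Real.pi * (l * t - δ)) := by
    intro l
    have h2 : Real.sin (Real.pi * (c + 1)) = 0 := by
      have := Real.sin_int_mul_pi (c + 1)
      push_cast at this
      rw [mul_comm]
      exact this
    have h1 : Real.pi * ((m - l) * t) = Real.pi * (c + 1) - (Real.pi * (l * t - δ) + Real.pi) := by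
      linear_combination Real.pi * hmt
    rw [h1, Real.sin_sub, h2, Real.sin_add_pi]
    ring
  -- both sides satisfy the same recursion
  have hrec : ∀ k : ℕ, k < m →
      (1 - ee t ^ (m - k)) = -2 * Complex.I * ((Real.cos (Real.pi * (c + 1)) : ℝ) *
        (Real.sin (Real.pi * (k * t - δ)) : ℝ)) * ee ((m - k) * t / 2) := by
    intro k hk
    rw [ee_nat, one_sub_ee]
    have h1 : ((m - k : ℕ) : ℝ) = m - k := by
      rw [Nat.cast_sub (by omega)]
    rw [h1, hrefl k]
    push_cast
    ring
  induction l, hl using Nat.le_induction with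
  | base =>
    have h1 := hstep 0 (by omega)
    have h0 := hne 1 le_rfl hlm
    rw [gb_zero_right, hrec 0 (by omega)] at h1
    simp only [zero_add, one_mul, pow_one] at h1 h0
    apply mul_right_cancel₀ h0
    rw [h1]
    have h2 : gg t δ 1 = 1 := by
      unfold gg
      simp
    have h3 : (1 : ℂ) - ee t = -2 * Complex.I * (Real.sin (Real.pi * t) : ℝ) * ee (t / 2) :=
      one_sub_ee t
    rw [h2, h3]
    have h4 : Real.sin (Real.pi * t) ≠ 0 := by
      have := hs 1 le_rfl hlm
      simpa using this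
    have h4' : (Real.sin (Real.pi * t) : ℂ) ≠ 0 := by exact_mod_cast h4
    have h5 : ee (((m : ℝ) - (0 : ℕ)) * t / 2) = ee (t * (1 : ℕ) * (m - (1 : ℕ)) / 2) * ee (t / 2) := by
      rw [← ee_add]
      congr 1
      push_cast
      ring
    have h6 : ee ((c + 1) * (1 : ℕ) / 2) = ee ((c + 1) / 2) := by
      congr 1
      push_cast
      ring
    have h7 : Real.sin (Real.pi * ((0 : ℕ) * t - δ)) = - Real.sin (Real.pi * δ) := by
      have : Real.pi * ((0 : ℕ) * t - δ) = -(Real.pi * δ) := by push_cast; ring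
      rw [this, Real.sin_neg]
    rw [h5, h6, hee, h7]
    have h8 : Real.sin (Real.pi * ((1 : ℕ) * t)) = Real.sin (Real.pi * t) := by
      rw [Nat.cast_one, one_mul]
    rw [h8, mul_one, Complex.ofReal_div, Complex.ofReal_neg]
    generalize (Real.sin (Real.pi * t) : ℂ) = s1 at *
    generalize (Real.sin (Real.pi * δ) : ℂ) = sdd at *
    generalize ((Real.cos (Real.pi * (c + 1)) : ℝ) : ℂ) = cc at *
    generalize ee (t / 2) = e1 at *
    generalize ee (t * (1 : ℕ) * (m - (1 : ℕ)) / 2) = e2 at *
    field_simp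
  | succ l hl ih =>
    have ih' := ih (by omega)
    have h1 := hstep l (by omega)
    have h0 := hne (l + 1) (by omega) hlm
    apply mul_right_cancel₀ h0
    rw [h1, ih', hrec l (by omega)]
    have h3 : (1 : ℂ) - ee t ^ (l + 1) =
        -2 * Complex.I * (Real.sin (Real.pi * ((l + 1 : ℕ) * t)) : ℝ) * ee ((l + 1 : ℕ) * t / 2) := by
      rw [ee_nat, one_sub_ee]
    have h2 : gg t δ (l + 1) = gg t δ l * wf t δ l := by
      unfold gg
      rw [Finset.prod_Ico_succ_top hl]
    have h4 : (Real.sin (Real.pi * (l * t)) : ℂ) ≠ 0 := by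
      exact_mod_cast hs l hl (by omega)
    have h4' : (Real.sin (Real.pi * ((l + 1 : ℕ) * t)) : ℂ) ≠ 0 := by
      exact_mod_cast hs (l + 1) (by omega) hlm
    have h5 : ee (t * l * (m - l) / 2) * ee ((m - l) * t / 2) =
        ee (t * (l + 1 : ℕ) * (m - (l + 1 : ℕ)) / 2) * ee ((l + 1 : ℕ) * t / 2) := by
      rw [← ee_add, ← ee_add]
      congr 1
      push_cast
      ring
    have h6 : ee ((c + 1) * (l + 1 : ℕ) / 2) = ee ((c + 1) * l / 2) * ee ((c + 1) / 2) := by
      rw [← ee_add]
      congr 1
      push_cast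
      ring
    rw [h3, h2, h6, hee]
    unfold wf
    rw [Complex.ofReal_mul, Complex.ofReal_mul, Complex.ofReal_div, Complex.ofReal_div,
      Complex.ofReal_mul, Complex.ofReal_div]
    generalize (Real.sin (Real.pi * ((l + 1 : ℕ) * t)) : ℂ) = s1 at *
    generalize (Real.sin (Real.pi * (l * t)) : ℂ) = s0 at *
    generalize (Real.sin (Real.pi * (l * t - δ)) : ℂ) = sd at *
    generalize (Real.sin (Real.pi * δ) : ℂ) = sdd at *
    generalize ((Real.cos (Real.pi * (c + 1)) : ℝ) : ℂ) = cc at *
    generalize ((gg t δ l : ℝ) : ℂ) = g at *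
    generalize ee ((c + 1) * l / 2) = e1 at *
    generalize ee (t * l * (m - l) / 2) = e2 at *
    generalize ee ((m - l) * t / 2) = e3 at *
    generalize ee (t * (l + 1 : ℕ) * (m - (l + 1 : ℕ)) / 2) = e4 at *
    generalize ee ((l + 1 : ℕ) * t / 2) = e5 at *
    field_simp
    linear_combination (e1 * sdd * g * cc * sd) * h5

end Pool.Agent.Y899.RR
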